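import Pool.Agent.H44.MS.Basics

/-!
# The Halberstam-Richert inequality
-/

set_option autoImplicit false

namespace Pool.Agent.H50.MS

open Finset Real Pool.Agent.H44.MS

/-- von Mangoldt. -/
noncomputable def vM (n : ℕ) : ℝ := ArithmeticFunction.vonMangoldt n

theorem vM_nonneg (n : ℕ) : 0 ≤ vM n := ArithmeticFunction.vonMangoldt_nonneg

theorem sum_vM_le (t : ℕ) : ∑ n ∈ Icc 1 t, vM n ≤ 8 * t := by
  have h := Chebyshev.psi_le_const_mul_self (x := (t : ℝ)) (by positivity)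
  have h2 : Chebyshev.psi (t : ℝ) = ∑ n ∈ Icc 1 t, vM n := by
    unfold Chebyshev.psi vM
    rw [Nat.floor_natCast]
    rfl
  rw [← h2]
  refine h.trans (mul_le_mul_of_nonneg_right ?_ (by positivity))
  have h3 : Real.log 4 ≤ 4 - 1 := Real.log_le_sub_one_of_pos (by norm_num)
  linarith

/-- the sum over pairs. -/
theorem sum_div (F : ℕ → ℕ → ℝ) (x : ℕ) :
    ∑ n ∈ Icc 1 x, ∑ d ∈ n.divisors, F d (n / d) =
      ∑ e ∈ Icc 1 x, ∑ d ∈ Icc 1 (x / e), F d e := by
  rw [Finset.sum_sigma', Finset.sum_sigma']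
  refine Finset.sum_bij' (fun z _ => ⟨z.1 / z.2, z.2⟩) (fun z _ => ⟨z.2 * z.1, z.2⟩) ?_ ?_ ?_ ?_ ?_
  · rintro ⟨n, d⟩ h
    simp only [Finset.mem_sigma, Finset.mem_Icc, Nat.mem_divisors] at h ⊢
    obtain ⟨⟨h1, h2⟩, h3, h4⟩ := h
    have hd : 0 < d := Nat.pos_of_dvd_of_pos h3 h1
    obtain ⟨e, rfl⟩ := h3
    have he : 0 < e := Nat.pos_of_mul_pos_left h1 |> fun _ => Nat.pos_of_ne_zero (by
      rintro rfl
      simp at h1)
    rw [Nat.mul_div_cancel_left e hd]
    refine ⟨⟨he, ?_⟩, hd, ?_⟩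
    · exact le_trans (Nat.le_mul_of_pos_left e hd) h2
    · rw [Nat.le_div_iff_mul_le he]
      exact h2
  · rintro ⟨e, d⟩ h
    simp only [Finset.mem_sigma, Finset.mem_Icc, Nat.mem_divisors] at h ⊢
    obtain ⟨⟨h1, h2⟩, h3, h4⟩ := h
    have h5 : d * e ≤ x := (Nat.le_div_iff_mul_le (by omega)).1 h4
    have h6 : 0 < d * e := Nat.mul_pos h3 h1
    exact ⟨⟨h6, h5⟩, Dvd.intro _ rfl, h6.ne'⟩
  · rintro ⟨n, d⟩ h
    simp only [Finset.mem_sigma, Finset.mem_Icc, Nat.mem_divisors] at h ⊢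
    obtain ⟨⟨h1, h2⟩, h3, h4⟩ := h
    simp only [Nat.mul_div_cancel' h3]
  · rintro ⟨e, d⟩ h
    simp only [Finset.mem_sigma, Finset.mem_Icc] at h ⊢
    obtain ⟨⟨h1, h2⟩, h3, h4⟩ := h
    simp only [Nat.mul_div_cancel_left e h3]
  · rintro ⟨n, d⟩ h
    rfl

section

variable (κ : ℝ) (h : ℕ → ℝ)

theorem h_nonneg (h1 : h 1 = 1) (hm : ∀ m n : ℕ, 0 < m → 0 < n → h (m * n) = h m * h n)
    (hp : ∀ p : ℕ, p.Prime → 0 ≤ h p) (n : ℕ) (hn : 0 < n) : 0 ≤ h n := by
  induction n using Nat.strong_induction_on with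
  | _ n ih =>
    rcases Nat.lt_or_ge 1 n with h2 | h2
    · have hpr : (n.minFac).Prime := Nat.minFac_prime (by omega)
      obtain ⟨m, hm'⟩ := Nat.minFac_dvd n
      have hm0 : 0 < m := Nat.pos_of_ne_zero (by
        rintro rfl
        rw [mul_zero] at hm'
        omega)
      have hlt : m < n := by
        calc m < n.minFac * m := by
              have := hpr.two_le
              nlinarith
          _ = n := hm'.symm
      rw [hm', hm _ _ hpr.pos hm0]
      exact mul_nonneg (hp _ hpr) (ih m hlt hm0)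
    · have h3 : n = 1 := by omega
      rw [h3, h1]
      norm_num

theorem h_pow (h1 : h 1 = 1) (hm : ∀ m n : ℕ, 0 < m → 0 < n → h (m * n) = h m * h n)
    (p : ℕ) (hp : 0 < p) (k : ℕ) : h (p ^ k) = h p ^ k := by
  induction k with
  | zero => simpa using h1
  | succ k ih => rw [pow_succ, hm _ _ (pow_pos hp k) hp, ih, pow_succ]

/-- the constant `∑ 2 n^(-3/2)`. -/
noncomputable def c0 : ℝ := ∑' n : ℕ, 2 * (n : ℝ) ^ (-(3 / 2) : ℝ)

theorem sum_log_le (t : ℕ) : ∑ p ∈ Icc 1 t, Real.log p / (p : ℝ) ^ 2 ≤ c0 := by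
  have hs : Summable (fun n : ℕ => 2 * (n : ℝ) ^ (-(3 / 2) : ℝ)) :=
    (Real.summable_nat_rpow.2 (by norm_num)).mul_left 2
  refine le_trans ?_ (hs.sum_le_tsum (Icc 1 t) (fun i _ => by positivity))
  refine Finset.sum_le_sum ?_
  intro p hp
  have hp1 : 1 ≤ p := (Finset.mem_Icc.1 hp).1
  have hp0 : (0 : ℝ) < p := by exact_mod_cast hp1
  have h2 := Real.log_le_rpow_div hp0.le (show (0 : ℝ) < 1 / 2 by norm_num)
  have h3 : (p : ℝ) ^ (-(3 / 2) : ℝ) = (p : ℝ) ^ (1 / 2 : ℝ) / (p : ℝ) ^ 2 := by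
    rw [← Real.rpow_natCast (p : ℝ) 2, ← Real.rpow_sub hp0]
    norm_num
  rw [h3, mul_div_assoc', div_le_div_iff_of_pos_right (by positivity)]
  linarith

theorem c0_nonneg : 0 ≤ c0 := tsum_nonneg (fun n => by positivity)

/-- the proper prime powers. -/
theorem proper_le (hκ : 1 ≤ κ) (h1 : h 1 = 1)
    (hm : ∀ m n : ℕ, 0 < m → 0 < n → h (m * n) = h m * h n)
    (hp : ∀ p : ℕ, p.Prime → 0 ≤ h p ∧ h p ≤ κ ∧ h p ≤ 3 / 4 * p) (t : ℕ) :
    ∑ d ∈ (Icc 1 t).filter (fun d => ¬ d.Prime), vM d * (h d / d) ≤ 4 * κ ^ 2 * c0 := by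
  classical
  have hpt : ∀ d ∈ (Icc 1 t).filter (fun d => ¬ d.Prime), vM d * (h d / d) ≤
      ∑ p ∈ (Icc 1 t).filter Nat.Prime, ∑ k ∈ Ico 2 (t + 1),
        if p ^ k = d then Real.log p * (h p / p) ^ k else 0 := by
    intro d hd
    obtain ⟨hd1, hd2⟩ := Finset.mem_filter.1 hd
    obtain ⟨hd3, hd4⟩ := Finset.mem_Icc.1 hd1
    have hnn : ∀ p ∈ (Icc 1 t).filter Nat.Prime, ∀ k ∈ Ico 2 (t + 1),
        0 ≤ if p ^ k = d then Real.log p * (h p / p) ^ k else 0 := by
      intro p hp' k _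
      split_ifs
      · have h2 := (hp p (Finset.mem_filter.1 hp').2).1
        have h3 : 0 ≤ Real.log p := Real.log_natCast_nonneg p
        positivity
      · exact le_rfl
    by_cases hv : IsPrimePow d
    · obtain ⟨p, k, hpp, hk, hpk⟩ := (isPrimePow_nat_iff d).1 hv
      have hk2 : 2 ≤ k := by
        by_contra hcon
        have hk1 : k = 1 := by omega
        rw [hk1, pow_one] at hpk
        exact hd2 (hpk ▸ hpp)
      have hpt : p ≤ t := le_trans (Nat.le_self_pow (by omega) p) (hpk ▸ hd4)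
      have hkt : k ≤ t := by
        refine le_trans (le_of_lt ?_) (hpk ▸ hd4)
        exact lt_of_lt_of_le Nat.lt_two_pow_self (Nat.pow_le_pow_left hpp.two_le k)
      have hval : vM d * (h d / d) = Real.log p * (h p / p) ^ k := by
        rw [← hpk]
        unfold vM
        rw [ArithmeticFunction.vonMangoldt_apply_pow (by omega),
          ArithmeticFunction.vonMangoldt_apply_prime hpp, h_pow h h1 hm p hpp.pos k, div_pow]
        push_cast
        rfl
      rw [hval]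
      have hin1 : p ∈ (Icc 1 t).filter Nat.Prime :=
        Finset.mem_filter.2 ⟨Finset.mem_Icc.2 ⟨hpp.pos, hpt⟩, hpp⟩
      have hin2 : k ∈ Ico 2 (t + 1) := Finset.mem_Ico.2 ⟨hk2, by omega⟩
      have s1 : Real.log p * (h p / p) ^ k = if p ^ k = d then Real.log p * (h p / p) ^ k else 0 := by
        rw [if_pos hpk]
      rw [s1]
      refine le_trans (Finset.single_le_sum (hnn p hin1) hin2) ?_
      exact Finset.single_le_sum (f := fun p => ∑ k ∈ Ico 2 (t + 1),
        if p ^ k = d then Real.log p * (h p / p) ^ k else 0)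
        (fun q hq => Finset.sum_nonneg (hnn q hq)) hin1
    · have hz : vM d = 0 := by
        by_contra hne
        exact hv (ArithmeticFunction.vonMangoldt_ne_zero_iff.1 hne)
      rw [hz, zero_mul]
      exact Finset.sum_nonneg (fun p hp' => Finset.sum_nonneg (hnn p hp'))
  refine (Finset.sum_le_sum hpt).trans ?_
  rw [Finset.sum_comm]
  have hin : ∀ p ∈ (Icc 1 t).filter Nat.Prime,
      ∑ d ∈ (Icc 1 t).filter (fun d => ¬ d.Prime), ∑ k ∈ Ico 2 (t + 1),
        (if p ^ k = d then Real.log p * (h p / p) ^ k else 0) ≤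
      4 * κ ^ 2 * (Real.log p / (p : ℝ) ^ 2) := by
    intro p hp'
    obtain ⟨hp1, hp2⟩ := Finset.mem_filter.1 hp'
    obtain ⟨hh1, hh2, hh3⟩ := hp p hp2
    have hp0 : (0 : ℝ) < p := by exact_mod_cast hp2.pos
    have hlog : 0 ≤ Real.log p := Real.log_natCast_nonneg p
    rw [Finset.sum_comm]
    have hu0 : 0 ≤ h p / p := by positivity
    have hu1 : h p / p ≤ 3 / 4 := by
      rw [div_le_iff₀ hp0]
      exact hh3
    have e1 : ∀ k ∈ Ico 2 (t + 1), ∑ d ∈ (Icc 1 t).filter (fun d => ¬ d.Prime),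
        (if p ^ k = d then Real.log p * (h p / p) ^ k else 0) ≤ Real.log p * (h p / p) ^ k := by
      intro k _
      rw [Finset.sum_ite_eq]
      split_ifs
      · exact le_rfl
      · positivity
    refine (Finset.sum_le_sum e1).trans ?_
    rw [← Finset.mul_sum]
    have e2 : ∑ k ∈ Ico 2 (t + 1), (h p / p) ^ k ≤ 4 * (κ ^ 2 / (p : ℝ) ^ 2) := by
      refine (geom_sum_Ico_le_of_lt_one hu0 (by linarith)).trans ?_
      have h3 : (h p / p) ^ 2 ≤ κ ^ 2 / (p : ℝ) ^ 2 := by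
        rw [div_pow]
        gcongr
      have h4 : (0 : ℝ) < 1 - h p / p := by linarith
      rw [div_le_iff₀ h4]
      have h5 : 0 ≤ κ ^ 2 / (p : ℝ) ^ 2 := by positivity
      nlinarith
    calc Real.log p * ∑ k ∈ Ico 2 (t + 1), (h p / p) ^ k
        ≤ Real.log p * (4 * (κ ^ 2 / (p : ℝ) ^ 2)) := mul_le_mul_of_nonneg_left e2 hlog
      _ = 4 * κ ^ 2 * (Real.log p / (p : ℝ) ^ 2) := by ring
  refine (Finset.sum_le_sum hin).trans ?_
  rw [← Finset.mul_sum]
  refine mul_le_mul_of_nonneg_left ?_ (by positivity)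
  refine le_trans ?_ (sum_log_le t)
  refine Finset.sum_le_sum_of_subset_of_nonneg (Finset.filter_subset _ _) ?_
  intro i _ _
  have : 0 ≤ Real.log i := Real.log_natCast_nonneg i
  positivity

/-- part (a). -/
theorem part_a (hκ : 1 ≤ κ) (h1 : h 1 = 1)
    (hm : ∀ m n : ℕ, 0 < m → 0 < n → h (m * n) = h m * h n)
    (hp : ∀ p : ℕ, p.Prime → 0 ≤ h p ∧ h p ≤ κ ∧ h p ≤ 3 / 4 * p) (t : ℕ) :
    ∑ d ∈ Icc 1 t, vM d * h d ≤ (8 * κ + 4 * κ ^ 2 * c0) * t := by
  classical
  have hnn := h_nonneg h h1 hm (fun p hp' => (hp p hp').1)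
  rw [← Finset.sum_filter_add_sum_filter_not (Icc 1 t) (fun d => d.Prime)]
  have e1 : ∑ d ∈ (Icc 1 t).filter (fun d => d.Prime), vM d * h d ≤ 8 * κ * t := by
    calc ∑ d ∈ (Icc 1 t).filter (fun d => d.Prime), vM d * h d
        ≤ ∑ d ∈ (Icc 1 t).filter (fun d => d.Prime), κ * vM d := by
          refine Finset.sum_le_sum ?_
          intro d hd
          have := (hp d (Finset.mem_filter.1 hd).2).2.1
          nlinarith [vM_nonneg d]
      _ ≤ ∑ d ∈ Icc 1 t, κ * vM d := by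
          refine Finset.sum_le_sum_of_subset_of_nonneg (Finset.filter_subset _ _) ?_
          intro d _ _
          have := vM_nonneg d
          positivity
      _ = κ * ∑ d ∈ Icc 1 t, vM d := by rw [Finset.mul_sum]
      _ ≤ κ * (8 * t) := mul_le_mul_of_nonneg_left (sum_vM_le t) (by linarith)
      _ = 8 * κ * t := by ring
  have e2 : ∑ d ∈ (Icc 1 t).filter (fun d => ¬ d.Prime), vM d * h d ≤ 4 * κ ^ 2 * c0 * t := by
    calc ∑ d ∈ (Icc 1 t).filter (fun d => ¬ d.Prime), vM d * h d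
        ≤ ∑ d ∈ (Icc 1 t).filter (fun d => ¬ d.Prime), (vM d * (h d / d)) * t := by
          refine Finset.sum_le_sum ?_
          intro d hd
          obtain ⟨hd1, hd2⟩ := Finset.mem_Icc.1 (Finset.mem_filter.1 hd).1
          have h0 : (0 : ℝ) < d := by exact_mod_cast hd1
          have h2 : (d : ℝ) ≤ t := by exact_mod_cast hd2
          have h3 := hnn d hd1
          have h4 := vM_nonneg d
          have h5 : h d ≤ h d / d * t := by
            rw [div_mul_eq_mul_div, le_div_iff₀ h0]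
            exact mul_le_mul_of_nonneg_left h2 h3
          calc vM d * h d ≤ vM d * (h d / d * t) := mul_le_mul_of_nonneg_left h5 h4
            _ = vM d * (h d / d) * t := by ring
      _ = (∑ d ∈ (Icc 1 t).filter (fun d => ¬ d.Prime), vM d * (h d / d)) * t := by
          rw [Finset.sum_mul]
      _ ≤ 4 * κ ^ 2 * c0 * t :=
          mul_le_mul_of_nonneg_right (proper_le κ h hκ h1 hm hp t) (by positivity)
  calc _ ≤ 8 * κ * t + 4 * κ ^ 2 * c0 * t := add_le_add e1 e2
    _ = _ := by ring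

/-- part (d). -/
theorem part_d (hκ : 1 ≤ κ) (h1 : h 1 = 1)
    (hm : ∀ m n : ℕ, 0 < m → 0 < n → h (m * n) = h m * h n)
    (hp : ∀ p : ℕ, p.Prime → 0 ≤ h p ∧ h p ≤ κ ∧ h p ≤ 3 / 4 * p) (x : ℕ) :
    ∑ n ∈ Icc 1 x, h n / n ≤ Real.exp (4 * κ ^ 2 * ∑' n : ℕ, 1 / (n : ℝ) ^ 2) *
      Real.exp (∑ p ∈ Icc 1 x, ic p.Prime * h p / p) := by
  classical
  have hnn := h_nonneg h h1 hm (fun p hp' => (hp p hp').1)
  let f : ℕ →* ℝ :=
    { toFun := fun n => if n = 0 then 0 else h n / n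
      map_one' := by simp [h1]
      map_mul' := by
        intro m n
        by_cases hm0 : m = 0
        · simp [hm0]
        · by_cases hn0 : n = 0
          · simp [hn0]
          · rw [if_neg hm0, if_neg hn0, if_neg (Nat.mul_ne_zero hm0 hn0),
              hm m n (Nat.pos_of_ne_zero hm0) (Nat.pos_of_ne_zero hn0)]
            push_cast
            rw [mul_div_mul_comm] }
  have hf : ∀ n, n ≠ 0 → f n = h n / n := fun n hn => if_neg hn
  have hfnn : ∀ n, 0 ≤ f n := by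
    intro n
    by_cases hn : n = 0
    · show 0 ≤ (if n = 0 then (0 : ℝ) else h n / n)
      rw [if_pos hn]
    · rw [hf n hn]
      have := hnn n (Nat.pos_of_ne_zero hn)
      positivity
  have hfp : ∀ {p : ℕ}, p.Prime → f p ≤ 3 / 4 := by
    intro p hp'
    rw [hf p hp'.ne_zero, div_le_iff₀ (by exact_mod_cast hp'.pos)]
    exact (hp p hp').2.2
  obtain ⟨hs1, hs2⟩ := EulerProduct.summable_and_hasSum_smoothNumbers_prod_primesBelow_geometric
    (f := f) (fun {p} hp' => by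
      rw [Real.norm_of_nonneg (hfnn p)]
      exact lt_of_le_of_lt (hfp hp') (by norm_num)) (x + 1)
  -- the partial sum is at most the product
  have e1 : ∑ n ∈ Icc 1 x, h n / n ≤ ∏ p ∈ (x + 1).primesBelow, (1 - f p)⁻¹ := by
    rw [← hs2.tsum_eq]
    let S : Finset ((x + 1).smoothNumbers) := (Icc 1 x).attach.image
      (fun n => ⟨n.1, Nat.mem_smoothNumbers_of_lt (by
        have := (Finset.mem_Icc.1 n.2).1
        omega) (by
        have := (Finset.mem_Icc.1 n.2).2
        omega)⟩)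
    have h2 : ∑ n ∈ Icc 1 x, h n / n = ∑ m ∈ S, f m := by
      rw [Finset.sum_image]
      · rw [← Finset.sum_attach]
        refine Finset.sum_congr rfl ?_
        intro n _
        have h3 := (Finset.mem_Icc.1 n.2).1
        rw [hf n.1 (by omega)]
      · intro a _ b _ hab
        have h9 := Subtype.mk.inj hab
        exact Subtype.ext h9
    rw [h2]
    exact hs2.summable.sum_le_tsum S (fun m _ => hfnn m)
  -- each factor
  have e2 : ∏ p ∈ (x + 1).primesBelow, (1 - f p)⁻¹ ≤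
      ∏ p ∈ (x + 1).primesBelow, Real.exp (f p + 4 * f p ^ 2) := by
    refine Finset.prod_le_prod ?_ ?_
    · intro p hp'
      have h3 := hfp (Nat.prime_of_mem_primesBelow hp')
      rw [inv_nonneg]
      linarith
    · intro p hp'
      have h3 := hfp (Nat.prime_of_mem_primesBelow hp')
      have h4 := hfnn p
      have h5 : (1 - f p)⁻¹ ≤ f p + 4 * f p ^ 2 + 1 := by
        rw [inv_le_comm₀ (by linarith) (by positivity)]
        rw [inv_le_iff_one_le_mul₀ (by positivity)]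
        nlinarith [mul_nonneg (mul_nonneg h4 h4) (by linarith : (0 : ℝ) ≤ 3 / 4 - f p)]
      exact h5.trans (Real.add_one_le_exp _)
  rw [← Real.exp_sum] at e2
  refine e1.trans (e2.trans ?_)
  rw [← Real.exp_add]
  refine Real.exp_le_exp.2 ?_
  rw [Finset.sum_add_distrib, add_comm]
  refine add_le_add ?_ (le_of_eq ?_)
  · rw [← Finset.mul_sum]
    have hs : Summable (fun n : ℕ => 1 / (n : ℝ) ^ 2) := Real.summable_one_div_nat_pow.2 (by norm_num)
    have h6 : ∑ p ∈ (x + 1).primesBelow, f p ^ 2 ≤ κ ^ 2 * ∑' n : ℕ, 1 / (n : ℝ) ^ 2 := by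
      calc ∑ p ∈ (x + 1).primesBelow, f p ^ 2
          ≤ ∑ p ∈ (x + 1).primesBelow, κ ^ 2 * (1 / (p : ℝ) ^ 2) := by
            refine Finset.sum_le_sum ?_
            intro p hp'
            have hp2 := Nat.prime_of_mem_primesBelow hp'
            obtain ⟨hh1, hh2, -⟩ := hp p hp2
            rw [hf p hp2.ne_zero, div_pow, mul_one_div]
            gcongr
        _ = κ ^ 2 * ∑ p ∈ (x + 1).primesBelow, (1 / (p : ℝ) ^ 2) := by rw [Finset.mul_sum]
        _ ≤ _ := mul_le_mul_of_nonneg_left (hs.sum_le_tsum _ (fun i _ => by positivity))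
            (by positivity)
    nlinarith
  · have h7 : (x + 1).primesBelow = (Icc 1 x).filter Nat.Prime := by
      ext p
      rw [Nat.mem_primesBelow, Finset.mem_filter, Finset.mem_Icc]
      constructor
      · rintro ⟨a, b⟩
        exact ⟨⟨b.pos, by omega⟩, b⟩
      · rintro ⟨⟨a, b⟩, c⟩
        exact ⟨by omega, c⟩
    rw [h7, Finset.sum_filter]
    refine Finset.sum_congr rfl ?_
    intro p hp'
    by_cases hpp : p.Prime
    · rw [if_pos hpp, ic_pos hpp, hf p hpp.ne_zero, one_mul]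
    · rw [if_neg hpp, ic_neg hpp, zero_mul, zero_div]

end

theorem pf_HR : T_HR := by
  intro κ hκ
  set B : ℝ := ∑' n : ℕ, 1 / (n : ℝ) ^ 2
  refine ⟨(8 * κ + 4 * κ ^ 2 * c0 + 1) * Real.exp (4 * κ ^ 2 * B), ?_, ?_⟩
  · have := c0_nonneg
    positivity
  intro h h1 hm hp x hx
  have hnn := h_nonneg h h1 hm (fun p hp' => (hp p hp').1)
  have hx0 : (0 : ℝ) < x := by exact_mod_cast (by omega : 0 < x)
  have hlog : 0 < Real.log x := Real.log_pos (by exact_mod_cast (by omega : 1 < x))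
  have hc0 := c0_nonneg
  -- (b)
  have hb : ∑ n ∈ Icc 1 x, h n * Real.log n ≤
      (8 * κ + 4 * κ ^ 2 * c0) * x * ∑ n ∈ Icc 1 x, h n / n := by
    have e1 : ∑ n ∈ Icc 1 x, h n * Real.log n =
        ∑ n ∈ Icc 1 x, ∑ d ∈ n.divisors, vM d * h d * h (n / d) := by
      refine Finset.sum_congr rfl ?_
      intro n hn
      have hn1 : 0 < n := (Finset.mem_Icc.1 hn).1
      rw [← ArithmeticFunction.vonMangoldt_sum, Finset.mul_sum]
      refine Finset.sum_congr rfl ?_
      intro d hd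
      obtain ⟨e, he⟩ := (Nat.mem_divisors.1 hd).1
      have hd0 : 0 < d := Nat.pos_of_mem_divisors hd
      have he0 : 0 < e := Nat.pos_of_ne_zero (by
        rintro rfl
        rw [mul_zero] at he
        omega)
      have h3 : n / d = e := by rw [he, Nat.mul_div_cancel_left e hd0]
      rw [h3]
      nth_rw 1 [he]
      rw [hm d e hd0 he0]
      unfold vM
      ring
    rw [e1, sum_div (fun d e => vM d * h d * h e) x, Finset.mul_sum]
    refine Finset.sum_le_sum ?_
    intro e he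
    have he1 : 0 < e := (Finset.mem_Icc.1 he).1
    have he0 : (0 : ℝ) < e := by exact_mod_cast he1
    rw [← Finset.sum_mul]
    have h3 := part_a κ h hκ h1 hm hp (x / e)
    have h4 : ((x / e : ℕ) : ℝ) ≤ x / e := Nat.cast_div_le
    have h5 := hnn e he1
    calc (∑ d ∈ Icc 1 (x / e), vM d * h d) * h e
        ≤ ((8 * κ + 4 * κ ^ 2 * c0) * ((x / e : ℕ) : ℝ)) * h e := mul_le_mul_of_nonneg_right h3 h5
      _ ≤ ((8 * κ + 4 * κ ^ 2 * c0) * (x / e)) * h e := by gcongr
      _ = (8 * κ + 4 * κ ^ 2 * c0) * x * (h e / e) := by ring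
  -- (c)
  have hcc : ∑ n ∈ Icc 1 x, h n * (Real.log x - Real.log n) ≤ x * ∑ n ∈ Icc 1 x, h n / n := by
    rw [Finset.mul_sum]
    refine Finset.sum_le_sum ?_
    intro n hn
    have hn1 : 0 < n := (Finset.mem_Icc.1 hn).1
    have hn0 : (0 : ℝ) < n := by exact_mod_cast hn1
    rw [← Real.log_div hx0.ne' hn0.ne']
    have h3 : Real.log (x / n) ≤ x / n := (Real.log_le_sub_one_of_pos (by positivity)).trans
      (by linarith)
    calc h n * Real.log (x / n) ≤ h n * (x / n) := mul_le_mul_of_nonneg_left h3 (hnn n hn1)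
      _ = x * (h n / n) := by ring
  have hd := part_d κ h hκ h1 hm hp x
  have hsum : Real.log x * ∑ n ∈ Icc 1 x, h n ≤
      (8 * κ + 4 * κ ^ 2 * c0 + 1) * x * ∑ n ∈ Icc 1 x, h n / n := by
    have e2 : Real.log x * ∑ n ∈ Icc 1 x, h n =
        ∑ n ∈ Icc 1 x, h n * (Real.log x - Real.log n) + ∑ n ∈ Icc 1 x, h n * Real.log n := by
      rw [← Finset.sum_add_distrib, Finset.mul_sum]
      refine Finset.sum_congr rfl ?_
      intro n _
      ring
    rw [e2]
    linarith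
  have hfin : Real.log x * ∑ n ∈ Icc 1 x, h n ≤ (8 * κ + 4 * κ ^ 2 * c0 + 1) * x *
      (Real.exp (4 * κ ^ 2 * B) * Real.exp (∑ p ∈ Icc 1 x, ic p.Prime * h p / p)) :=
    hsum.trans (mul_le_mul_of_nonneg_left hd (by positivity))
  rw [mul_div_assoc, div_eq_mul_inv]
  calc ∑ n ∈ Icc 1 x, h n = (Real.log x)⁻¹ * (Real.log x * ∑ n ∈ Icc 1 x, h n) := by
        rw [← mul_assoc, inv_mul_cancel₀ hlog.ne', one_mul]
    _ ≤ (Real.log x)⁻¹ * ((8 * κ + 4 * κ ^ 2 * c0 + 1) * x *
      (Real.exp (4 * κ ^ 2 * B) * Real.exp (∑ p ∈ Icc 1 x, ic p.Prime * h p / p))) :=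
        mul_le_mul_of_nonneg_left hfin (inv_nonneg.2 hlog.le)
    _ = _ := by ring

end Pool.Agent.H50.MS
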